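import Pool.Agent.Lib.helper22.CXEtrH

/-! Asymptotic infima of a coordinate on an integer variety are algebraic of bounded height. -/

namespace Pool.Agent.H.MP_432bcd_lc

open Finset Filter Topology Pool.Agent.Lib.ER

variable {ι : Type} [Fintype ι] [DecidableEq ι]

def Rp (R : Fin 3 → ι → (ι → ℝ) → ℝ) (J B : ℕ) (f : (ι → ℝ) → (Fin 3 → ℝ) → ℝ) : Prop :=
  ∃ c : (ι → Fin 5) × (Fin 3 → Fin (J + 1)) → ℤ, (∀ p, |c p| ≤ B) ∧ ∀ x a, (∀ i, x i ^ 5 = ∑ r, a r * R r i x) →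
    f x a = ∑ p, c p * (mono (fun i => p.1 i) x * mono (fun r => p.2 r) a)

variable {R : Fin 3 → ι → (ι → ℝ) → ℝ}

theorem Rp.add {J B C f g} (h : Rp R J B f) (h' : Rp R J C g) : Rp R J (B + C) fun x a => f x a + g x a := by
  obtain ⟨c, h1, h2⟩ := h
  obtain ⟨c', h1', h2'⟩ := h'
  refine ⟨c + c', fun p => (abs_add_le _ _).trans ?_, fun x a hx => ?_⟩
  · have := h1 p
    have := h1' p
    push_cast at *
    linarith
  · simp only [Pi.add_apply, Int.cast_add, add_mul, sum_add_distrib, h2 x a hx, h2' x a hx]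

theorem Rp.of {J B C f g} (h : Rp R J B f) (e : B = C) (l : ∀ x a, (∀ i, x i ^ 5 = ∑ r, a r * R r i x) → g x a = f x a) :
    Rp R J C g := by
  obtain ⟨c, h1, h2⟩ := h
  exact ⟨c, e ▸ h1, fun x a hx => (l x a hx).trans (h2 x a hx)⟩

theorem rp_po {J K s j} (ih : ∀ β : ι → ℕ, ∑ i, β i ≤ s → Rp R J K fun x a => mono β x * mono j a)
    {B f} (h : Po 3 B f) (β : ι → ℕ) (hβ : ∑ i, β i + 3 ≤ s) : Rp R J (B * K) fun x a => mono β x * mono j a * f x := by
  induction h with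
  | mono γ h => exact (ih (β + γ) (by simp [sum_add_distrib]; omega)).of (by simp) fun x a _ => by rw [mono_add]; ring
  | zero B => exact ⟨0, fun _ => by simp; positivity, by simp⟩
  | neg _ ih =>
    obtain ⟨c, h1, h2⟩ := ih
    exact ⟨-c, by simpa using h1, fun x δ hx => by simp [← h2 x δ hx]⟩
  | add _ _ ih ih' => exact (ih.add ih').of (by ring) fun x a _ => by ring

theorem rp_mono {H J : ℕ} (h1 : 1 ≤ H) (po : ∀ r i, Po 3 H (R r i)) (s : ℕ) : ∀ j : Fin 3 → ℕ, (∀ r, s + j r ≤ J) →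
    ∀ β : ι → ℕ, ∑ i, β i ≤ s → Rp R J ((3 * H) ^ s) fun x a => mono β x * mono j a := by
  have base : ∀ s (j : Fin 3 → ℕ), (∀ r, s + j r ≤ J) → ∀ β : ι → ℕ, (∀ i, β i < 5) →
      Rp R J ((3 * H) ^ s) fun x a => mono β x * mono j a := fun s j hj β c => by
    refine ⟨Pi.single (fun i => ⟨β i, c i⟩, fun r => ⟨j r, by have := hj r; omega⟩) 1, fun p => ?_, fun x δ _ => ?_⟩
    · have : (1 : ℤ) ≤ ((3 * H) ^ s : ℕ) := by exact_mod_cast Nat.one_le_pow _ _ (by omega)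
      rw [Pi.single_apply]; split_ifs <;> simp at this ⊢ <;> linarith
    · rw [sum_eq_single (fun i => ⟨β i, c i⟩, fun r => ⟨j r, by have := hj r; omega⟩)] <;>
        simp +contextual [Pi.single_apply]
  induction s with
  | zero =>
    exact fun j hj β hβ => base 0 j hj β fun i => by
      have := single_le_sum (f := β) (fun _ _ => Nat.zero_le _) (mem_univ i); omega
  | succ s ih =>
    intro j hj β hβ
    by_cases c : ∀ i, β i < 5
    · exact base _ j hj β c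
    push Not at c
    obtain ⟨i, hi⟩ := c
    obtain ⟨γ, rfl⟩ : ∃ γ, β = γ + Pi.single i 5 := ⟨β - Pi.single i 5, funext fun k => by
      by_cases e : k = i <;> simp [e, hi]⟩
    simp [sum_add_distrib] at hβ
    have q := fun r => rp_po (ih (j + Pi.single r 1) fun r' => by
      have := hj r'
      rw [Pi.add_apply, Pi.single_apply]; split_ifs <;> omega) (po r i) γ (by omega)
    exact (((q 0).add (q 1)).add (q 2)).of (by ring) fun x a hx => by
      simp only [mono_add, mono_single, hx i, Fin.sum_univ_three]; ring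

attribute [local instance] Matrix.seminormedAddCommGroup in
theorem rel {H : ℕ} (h1 : 1 ≤ H) (po : ∀ r i, Po 3 H (R r i)) {K : ℕ} (hK : K = 16 * 5 ^ Fintype.card ι) (i : ι) :
    ∃ t : Fin (K + 1) × (Fin 3 → Fin (K + 1)) → ℤ, t ≠ 0 ∧ (∀ p, (|t p| : ℝ) ≤ (K + 1) ^ 4 * (3 * H : ℕ) ^ K) ∧
      ∀ x a, (∀ i, x i ^ 5 = ∑ r, a r * R r i x) → ∑ p, t p * (x i ^ p.1.1 * mono (fun r => p.2 r) a) = 0 := by
  have : ∀ p : Fin (K + 1) × (Fin 3 → Fin (K + 1)), Rp R (2 * K) ((3 * H) ^ K) fun x a =>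
      mono (Pi.single i p.1.1) x * mono (fun r => p.2 r) a :=
    fun p => rp_mono h1 po K _ (fun r => by have := (p.2 r).2; omega) _ (by have := p.1.2; simp; omega)
  choose c hc1 hc2 using this
  have p5 : 0 < 5 ^ Fintype.card ι := by positivity
  have e1 : Fintype.card ((ι → Fin 5) × (Fin 3 → Fin (2 * K + 1))) = 5 ^ Fintype.card ι * (2 * K + 1) ^ 3 := by simp
  have e2 : Fintype.card (Fin (K + 1) × (Fin 3 → Fin (K + 1))) = (K + 1) ^ 4 := by simp; ring
  have l : 2 * (5 ^ Fintype.card ι * (2 * K + 1) ^ 3) < (K + 1) ^ 4 :=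
    calc _ ≤ 2 * (5 ^ Fintype.card ι * (2 * (K + 1)) ^ 3) := by gcongr; omega
      _ = K * (K + 1) ^ 3 := by rw [mul_pow]; nth_rw 2 [hK]; ring
      _ < _ := by rw [pow_succ' _ 3]; gcongr; omega
  obtain ⟨t, h0, h2, h3⟩ := Int.Matrix.exists_ne_zero_int_vec_norm_le (Matrix.of fun q p => c p q)
    (by rw [e1, e2]; omega) (by rw [e1]; positivity)
  rw [e1, e2] at h3
  have hH : (1 : ℝ) ≤ (3 * H : ℕ) ^ K := by exact_mod_cast Nat.one_le_pow _ _ (by omega)
  have nA : max 1 ‖(Matrix.of fun q p => c p q)‖ ≤ ((3 * H : ℕ) : ℝ) ^ K := max_le hH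
    ((Matrix.norm_le_iff (by positivity)).2 fun q p => by rw [Int.norm_eq_abs]; exact_mod_cast hc1 p q)
  refine ⟨t, h0, fun p => ?_, fun x δ hx => ?_⟩
  · have b1 : (1 : ℝ) ≤ ((K + 1) ^ 4 : ℕ) := by exact_mod_cast Nat.one_le_pow _ _ (by omega)
    have b2 : (1 : ℝ) ≤ ((K + 1) ^ 4 : ℕ) * max 1 ‖(Matrix.of fun q p => c p q)‖ :=
      one_le_mul_of_one_le_of_one_le b1 (le_max_left _ _)
    have l' : (2 : ℝ) * (5 ^ Fintype.card ι * (2 * K + 1) ^ 3 : ℕ) < ((K + 1) ^ 4 : ℕ) := by exact_mod_cast l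
    have l0 : (0 : ℝ) ≤ (5 ^ Fintype.card ι * (2 * K + 1) ^ 3 : ℕ) := Nat.cast_nonneg _
    have := h3.trans (Real.rpow_le_rpow_of_exponent_le b2 (z := 1) ((div_le_one (by linarith)).2 (by linarith)))
    rw [Real.rpow_one] at this
    have h4 := (norm_le_pi_norm t p).trans this
    rw [Int.norm_eq_abs] at h4
    refine h4.trans ?_
    rw [Nat.cast_pow, Nat.cast_succ]
    gcongr
  · have : ∀ q, ∑ p, (c p q : ℝ) * t p = 0 := fun q => by
      have := congrFun h2 q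
      simp only [Matrix.mulVec, dotProduct, Matrix.of_apply, Pi.zero_apply] at this
      exact_mod_cast this
    simp only [← mono_single i, fun p => hc2 p x δ hx, mul_sum]
    rw [sum_comm]
    refine sum_eq_zero fun q _ => ?_
    rw [← zero_mul (mono (fun i => q.1 i) x * mono (fun r => q.2 r) δ), ← this q, sum_mul]
    exact sum_congr rfl fun p _ => by ring

theorem lim {X : Type} [TopologicalSpace X] {U : Set X} (hU : IsCompact U) {W : Set (X × ℝ)} (hW : IsClosed W)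
    (h : ∀ k : ℕ, ∃ u ∈ U, ∃ r : ℝ, |r| ≤ 1 / (k + 1) ∧ (u, r) ∈ W) : ∃ u ∈ U, (u, 0) ∈ W := by
  have c := (((hU.prod (isCompact_Icc (a := (-1 : ℝ)) (b := 1))).inter_right hW).image continuous_snd).isClosed
  obtain ⟨⟨u, r⟩, ⟨⟨a, -⟩, b⟩, rfl⟩ : (0 : ℝ) ∈ _ := c.closure_subset (Metric.mem_closure_iff.2 fun e he => by
    obtain ⟨k, hk⟩ := exists_nat_one_div_lt he
    obtain ⟨u, a, r, b, w⟩ := h k
    refine ⟨r, ⟨(u, r), ⟨⟨a, abs_le.1 (b.trans ?_)⟩, w⟩, rfl⟩, by simpa using b.trans_lt hk⟩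
    exact (div_le_one (by positivity)).2 (by simp))
  exact ⟨u, a, b⟩

def tp {σ : Type} (S : Finset σ) (d : σ → ℕ) : Finset σ := S.filter fun q => d q = S.sup d

theorem tp_ne {σ : Type} {S : Finset σ} (h : S.Nonempty) (d) : (tp S d).Nonempty := by
  obtain ⟨q, a, b⟩ := exists_mem_eq_sup S h d
  exact ⟨q, mem_filter.2 ⟨a, b.symm⟩⟩

theorem top {X σ : Type} [TopologicalSpace X] {U : Set X} (hU : IsCompact U) {W : Set (X × ℝ)} (hW : IsClosed W)
    (S : Finset σ) (d : σ → ℕ) {f : σ → X → ℝ} (hf : ∀ q, Continuous (f q))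
    (h : ∀ k : ℕ, ∃ u ∈ U, ∃ s : ℝ, k + 1 ≤ s ∧ ∑ q ∈ S, f q u * s ^ d q = 0 ∧ (u, s⁻¹) ∈ W) :
    ∃ u ∈ U, ∑ q ∈ tp S d, f q u = 0 ∧ (u, 0) ∈ W := by
  obtain ⟨u, a, b, c⟩ := lim hU (W := {p | ∑ q ∈ S, f q p.1 * p.2 ^ (S.sup d - d q) = 0} ∩ W)
    ((isClosed_eq (by fun_prop) continuous_const).inter hW) fun k => by
      obtain ⟨u, a, s, b, c, e⟩ := h k
      have s0 : 0 < s := lt_of_lt_of_le (by positivity) b
      refine ⟨u, a, s⁻¹, by rw [abs_of_pos (inv_pos.2 s0), one_div]; gcongr, ?_, e⟩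
      have := congrArg (· * s⁻¹ ^ S.sup d) c
      simp only [zero_mul, sum_mul] at this
      refine (sum_congr rfl fun q hq => ?_).trans this
      obtain ⟨r, hr⟩ := Nat.exists_eq_add_of_le (le_sup (f := d) hq)
      rw [hr, Nat.add_sub_cancel_left, pow_add, mul_assoc, ← mul_assoc (s ^ _), ← mul_pow, mul_inv_cancel₀ s0.ne',
        one_pow, one_mul]
  refine ⟨u, a, ?_, c⟩
  rw [← b, tp, sum_filter]
  refine sum_congr rfl fun q hq => ?_
  have := le_sup (f := d) hq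
  split_ifs with e
  · simp [e]
  · simp [show S.sup d - d q ≠ 0 by omega]

theorem a6 (u : ℝ) : |u| ≤ u ^ 6 + 1 := by
  rw [← Even.pow_abs (by decide) u]
  rcases le_total |u| 1 with h | h
  · have : 0 ≤ |u| ^ 6 := by positivity
    linarith
  · have := le_self_pow₀ h (n := 6) (by decide)
    linarith

theorem inK {C : ℝ} {x : ι → ℝ} (hx : ∑ i, x i ^ 6 ≤ C) : x ∈ Metric.closedBall (0 : ι → ℝ) (C + 1) := by
  have : 0 ≤ ∑ i, x i ^ 6 := sum_nonneg fun _ _ => by positivity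
  rw [mem_closedBall_zero_iff, pi_norm_le_iff_of_nonneg (by linarith)]
  intro i
  have := a6 (x i)
  have := single_le_sum (f := fun i => x i ^ 6) (fun _ _ => by positivity) (mem_univ i)
  rw [Real.norm_eq_abs]; linarith

theorem crit {Q : (ι → ℝ) → ℝ} {D : ι → (ι → ℝ) → ℝ} (q0 : ∀ x, 0 ≤ Q x) (qc : Continuous Q)
    (der : ∀ x i, HasDerivAt (fun t => Q (Function.update x i t)) (-6 * D i x) (x i)) (y : ι → ℝ) :
    ∃ x, Q x + ∑ i, x i ^ 6 ≤ Q y + ∑ i, y i ^ 6 ∧ ∀ i, x i ^ 5 = D i x := by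
  obtain ⟨x, gl⟩ := Continuous.exists_forall_le' (f := fun x => Q x + ∑ i, x i ^ 6) (by fun_prop) y
    (mem_of_superset (isCompact_closedBall (0 : ι → ℝ) (Q y + ∑ i, y i ^ 6 + 1)).compl_mem_cocompact fun z hz => by
      by_contra c
      exact hz (inK (by have := q0 z; simp only [Set.mem_ofPred_eq] at c; linarith)))
  refine ⟨x, gl y, fun i => ?_⟩
  have d : HasDerivAt (fun t => Q (Function.update x i t) + (t ^ 6 + ∑ j ∈ univ \ {i}, x j ^ 6))
      (-6 * D i x + 6 * x i ^ 5) (x i) :=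
    (der x i).add (HasDerivAt.add_const _ (by simpa using hasDerivAt_pow 6 (x i)))
  have e : ∀ t, ∑ j, Function.update x i t j ^ 6 = t ^ 6 + ∑ j ∈ univ \ {i}, x j ^ 6 := fun t => by
    rw [← sum_update_of_mem (mem_univ i)]
    exact sum_congr rfl fun j _ => Function.apply_update (fun _ u => u ^ 6) x i t j
  have := IsLocalMin.hasDerivAt_eq_zero (Eventually.of_forall fun t => by
    have := gl (Function.update x i t)
    rw [e] at this
    simpa [← e] using this) d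
  linarith

end Pool.Agent.H.MP_432bcd_lc
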