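import Pool.Agent.H.MP_432bcd_lc.A

namespace Pool.Agent.H.MP_432bcd_lc

open Finset Filter Topology Pool.Agent.Lib.ER

variable {ι : Type} [Fintype ι] [DecidableEq ι]

omit [Fintype ι] in
theorem der_sq (x : ι → ℝ) (i v : ι) :
    HasDerivAt (fun t => Function.update x i t v ^ 2) (2 * if i = v then x v else 0) (x i) := by
  split_ifs with c
  · subst c; simpa using hasDerivAt_pow 2 (x i)
  · simpa [Function.update_of_ne (Ne.symm c)] using hasDerivAt_const (x i) (x v ^ 2)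

theorem opt_core {P : (ι → ℝ) → ℝ} {R : ι → (ι → ℝ) → ℝ} {H : ℕ} (h1 : 1 ≤ H) (po : ∀ i, Po 3 H (R i))
    (p0 : ∀ x, 0 ≤ P x) (pc : Continuous P) (der : ∀ x i, HasDerivAt (fun t => P (Function.update x i t)) (-R i x) (x i))
    (g h : ι) {m : ℝ} (m0 : 0 ≤ m) (a1 : ∀ η > 0, ∀ ε > 0, ∃ x, P x = 0 ∧ |x g| < ε ∧ |x h| < m + η)
    (a2 : ∀ η > 0, ∃ ε > 0, ∀ x, P x = 0 → |x g| < ε → m - η ≤ |x h|) {K : ℕ} (hK : K = 16 * 5 ^ Fintype.card ι) :
    ∃ c : Fin (K + 1) → ℤ, c ≠ 0 ∧ (∀ a, (|c a| : ℝ) ≤ (K + 1) ^ 4 * (3 * H : ℕ) ^ K) ∧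
      ∃ u : ℝ, |u| = m ∧ ∑ a, c a * u ^ a.1 = 0 := by
  have pv : ∀ v i : ι, Po 3 H fun x : ι → ℝ => -if i = v then x v else 0 := fun v i =>
    ((((Po.one (d := 0)).var v).ite (i = v)).neg.deg (by omega)).le h1 |>.congr fun x => by simp
  obtain ⟨t, t0, t1, t2⟩ := rel (R := ![fun i x => -if i = h then x h else 0, fun i x => -if i = g then x g else 0, R])
    h1 (fun r i => by fin_cases r; exacts [pv h i, pv g i, po i]) hK h
  obtain ⟨S, hS, sS⟩ : ∃ S : Finset (Fin (K + 1) × (Fin 3 → Fin (K + 1))), S.Nonempty ∧ ∀ q, q ∈ S ↔ t q ≠ 0 :=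
    ⟨univ.filter fun q => t q ≠ 0, by
      by_contra e
      exact t0 (funext fun a => by simpa using fun h => e ⟨a, mem_filter.2 ⟨mem_univ a, h⟩⟩), by simp⟩
  let d2 := fun q : Fin (K + 1) × (Fin 3 → Fin (K + 1)) => (q.2 2).1
  let d0 := fun q : Fin (K + 1) × (Fin 3 → Fin (K + 1)) => (q.2 0).1 + (q.2 1).1
  let d1 := fun q : Fin (K + 1) × (Fin 3 → Fin (K + 1)) => (q.2 1).1
  have s1 : ∀ (κ c C : ℝ) (y : ι → ℝ), 0 < κ → 0 < c → P y = 0 → 3 * c * (y h ^ 2 + κ * y g ^ 2) + ∑ i, y i ^ 6 ≤ 3 * c * C →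
      ∃ x, P x = 0 ∧ x h ^ 2 + κ * x g ^ 2 ≤ C ∧ ∑ q ∈ tp S d2, t q * x h ^ q.1.1 * κ ^ d1 q * c ^ d0 q = 0 := by
    intro κ c C y hκ hc hy hC
    obtain ⟨x, -, e, w1, w2⟩ := top (isCompact_closedBall (0 : ι → ℝ) (3 * c * C + 1))
      (W := {p | 6 * P p.1 ≤ 3 * c * C * p.2} ∩ {p | p.1 h ^ 2 + κ * p.1 g ^ 2 ≤ C})
      ((isClosed_le (by fun_prop) (by fun_prop)).inter (isClosed_le (by fun_prop) (by fun_prop))) S d2
      (f := fun q x => t q * x h ^ q.1.1 * κ ^ d1 q * c ^ d0 q) (fun q => by fun_prop) fun k => by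
        have k0 : (0 : ℝ) < k + 1 := by positivity
        obtain ⟨x, b, e⟩ := crit (Q := fun x => 3 * c * (x h ^ 2 + κ * x g ^ 2) + 6 * (k + 1) * P x)
          (D := fun i x => c * -(if i = h then x h else 0) + c * κ * -(if i = g then x g else 0) + (k + 1) * R i x)
          (fun x => by have := p0 x; positivity) (by fun_prop) (fun x i =>
            ((((der_sq x i h).fun_add ((der_sq x i g).const_mul κ)).const_mul (3 * c)).fun_add
              ((der x i).const_mul (6 * ((k : ℝ) + 1)))).congr_deriv (by ring)) y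
        rw [hy, mul_zero, add_zero] at b
        have b1 : 0 ≤ 3 * c * (x h ^ 2 + κ * x g ^ 2) := by positivity
        have b2 : 0 ≤ 6 * (k + 1) * P x := by have := p0 x; positivity
        have b3 : 0 ≤ ∑ i, x i ^ 6 := sum_nonneg fun _ _ => by positivity
        refine ⟨x, inK (by linarith), k + 1, le_rfl, ?_, (le_mul_inv_iff₀ k0).2 (by linarith),
          le_of_mul_le_mul_left (a := 3 * c) (by linarith) (by positivity)⟩
        rw [← t2 x ![c, c * κ, k + 1] fun i => by simpa [Fin.sum_univ_three] using e i,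
          sum_subset (subset_univ S) fun q _ hq => by simp [not_not.1 (mt (sS q).2 hq)]]
        refine sum_congr rfl fun q _ => ?_
        simp [d0, d1, d2, mono, Fin.prod_univ_three, mul_pow, pow_add]; ring
    exact ⟨x, le_antisymm (by simp at w1; linarith) (p0 x), w2, e⟩
  have cU : ∀ η : ℝ, IsCompact (Set.Icc (-(m + η)) (m + η) ∩ {u : ℝ | m - η ≤ |u|}) := fun η =>
    isCompact_Icc.inter_right (isClosed_le (by fun_prop) (by fun_prop))
  have s3 : ∀ η > 0, ∃ u ∈ Set.Icc (-(m + η)) (m + η) ∩ {u : ℝ | m - η ≤ |u|},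
      ∑ q ∈ tp (tp (tp S d2) d0) d1, t q * u ^ q.1.1 = 0 := fun η hη => by
    obtain ⟨ε, e0, he⟩ := a2 η hη
    obtain ⟨u, a, b, -⟩ := top (cU η) isClosed_univ (tp (tp S d2) d0) d1 (f := fun q u => t q * u ^ q.1.1)
      (fun q => by fun_prop) fun k => by
        obtain ⟨κ, k1, k2⟩ : ∃ κ : ℝ, k + 1 ≤ κ ∧ (m + η) ^ 2 < κ * ε ^ 2 :=
          ⟨k + 1 + (m + η) ^ 2 / ε ^ 2, le_add_of_nonneg_right (by positivity), by
            rw [add_mul, div_mul_cancel₀ _ (by positivity)]; exact lt_add_of_pos_left _ (by positivity)⟩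
        have k0 : 0 < κ := lt_of_lt_of_le (by positivity) k1
        obtain ⟨y, y0, y1, y2⟩ := a1 (η / 2) (by positivity) (√(η ^ 2 / 4 / κ)) (by positivity)
        have y3 : κ * y g ^ 2 < η ^ 2 / 4 := by
          rw [Real.lt_sqrt (abs_nonneg _), sq_abs, lt_div_iff₀ k0] at y1; linarith
        have y4 : y h ^ 2 < (m + η / 2) ^ 2 := sq_lt_sq' (abs_lt.1 y2).1 (abs_lt.1 y2).2
        have y5 : 0 < (m + η) ^ 2 - (y h ^ 2 + κ * y g ^ 2) := by nlinarith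
        obtain ⟨u, a, b, -⟩ := top (cU η) isClosed_univ (tp S d2) d0 (f := fun q u => t q * u ^ q.1.1 * κ ^ d1 q)
          (fun q => by fun_prop) fun l => by
            have z0 : 0 ≤ ∑ i, y i ^ 6 := sum_nonneg fun _ _ => by positivity
            obtain ⟨c, c1, c2⟩ : ∃ c : ℝ, l + 1 ≤ c ∧ ∑ i, y i ^ 6 ≤ c * ((m + η) ^ 2 - (y h ^ 2 + κ * y g ^ 2)) :=
              ⟨l + 1 + (∑ i, y i ^ 6) / _, le_add_of_nonneg_right (div_nonneg z0 y5.le), by
                rw [add_mul, div_mul_cancel₀ _ y5.ne']; exact le_add_of_nonneg_left (by positivity)⟩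
            obtain ⟨x, x0, x1, x2⟩ := s1 κ c ((m + η) ^ 2) y k0 (lt_of_lt_of_le (by positivity) c1) y0 (by linarith)
            have x3 : 0 ≤ κ * x g ^ 2 := by positivity
            refine ⟨x h, ⟨abs_le.1 (abs_le_of_sq_le_sq (by linarith) (by positivity)), he x x0 ?_⟩, c, c1, x2, trivial⟩
            exact abs_lt_of_sq_lt_sq (lt_of_mul_lt_mul_left (a := κ) (by nlinarith [sq_nonneg (x h)]) k0.le) e0.le
        exact ⟨u, a, κ, k1, b, trivial⟩
    exact ⟨u, a, b⟩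
  obtain ⟨u, -, b, c1, c2⟩ := lim (isCompact_Icc (a := -(m + 1)) (b := m + 1))
    (W := {p | ∑ q ∈ tp (tp (tp S d2) d0) d1, t q * p.1 ^ q.1.1 = 0} ∩ ({p | m - p.2 ≤ |p.1|} ∩ {p | |p.1| ≤ m + p.2}))
    ((isClosed_eq (by fun_prop) continuous_const).inter
      ((isClosed_le (by fun_prop) (by fun_prop)).inter (isClosed_le (by fun_prop) (by fun_prop)))) fun k => by
      have k0 : (0 : ℝ) < 1 / (k + 1) := by positivity
      have k1 : (1 : ℝ) / (k + 1) ≤ 1 := (div_le_one (by positivity)).2 (by simp)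
      obtain ⟨u, ⟨a, a'⟩, b⟩ := s3 _ k0
      exact ⟨u, ⟨by linarith [a.1], by linarith [a.2]⟩, _, (abs_of_pos k0).le, b, a', abs_le.2 a⟩
  obtain ⟨p, hp⟩ := tp_ne (tp_ne (tp_ne hS d2) d0) d1
  have key : ∀ q ∈ tp (tp (tp S d2) d0) d1, q.2 = p.2 := fun q hq => by
    simp only [tp, mem_filter] at hp hq
    have e1 := hq.2.trans hp.2.symm
    have e0 := hq.1.2.trans hp.1.2.symm
    have e2 := hq.1.1.2.trans hp.1.1.2.symm
    simp only [d0, d1, d2] at e0 e1 e2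
    funext r
    fin_cases r <;> apply Fin.ext <;> simp <;> omega
  refine ⟨fun a => if (a, p.2) ∈ tp (tp (tp S d2) d0) d1 then t (a, p.2) else 0, fun e => ?_, fun a => ?_, u,
    le_antisymm (by simpa using c2) (by simpa using c1), ?_⟩
  · have := congrFun e p.1
    simp only [Prod.mk.eta, hp, if_true, Pi.zero_apply] at this
    exact (sS p).1 (mem_filter.1 (mem_filter.1 (mem_filter.1 hp).1).1).1 this
  · beta_reduce
    split_ifs
    · exact t1 _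
    · simp; positivity
  · simp only [Set.mem_ofPred_eq] at b
    rw [← b]
    simp only [Int.cast_ite, Int.cast_zero, ite_mul, zero_mul, ← sum_filter]
    exact sum_nbij' (fun a => (a, p.2)) (fun q => q.1) (by simp) (fun q hq => by simpa [← key q hq] using hq) (by simp)
      (fun q hq => by simp [← key q hq]) (by simp)

theorem bound_le (N M : ℕ) : (16 * 5 ^ N + 1) ^ 4 * (3 * (6 + 24 * M)) ^ (16 * 5 ^ N) + 2 ≤ 2 ^ 2 ^ (3 * N + M + 8) := by
  have h1 : 16 * 5 ^ N * (M + 12) ≤ 2 ^ (3 * N + M + 8) := by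
    have a : 5 ^ N ≤ 8 ^ N := Nat.pow_le_pow_left (by omega) N
    have b : M + 12 ≤ 2 ^ M * 16 := by have := Nat.lt_two_pow_self (n := M); omega
    calc 16 * 5 ^ N * (M + 12) ≤ 16 * 8 ^ N * (2 ^ M * 16) := by gcongr
      _ = 2 ^ (3 * N + M + 8) := by rw [pow_add, pow_add, pow_mul]; ring
  have h0 : 0 < 16 * 5 ^ N := by positivity
  generalize 16 * 5 ^ N = K at *
  have h2 : K + 1 ≤ 2 ^ K := Nat.lt_two_pow_self
  have h3 : 3 * (6 + 24 * M) ≤ 2 ^ (M + 7) := by have := Nat.lt_two_pow_self (n := M); rw [pow_add]; omega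
  have h4 : (K + 1) ^ 4 * (3 * (6 + 24 * M)) ^ K ≤ 2 ^ (K * (M + 11)) :=
    calc _ ≤ (2 ^ K) ^ 4 * (2 ^ (M + 7)) ^ K := by gcongr
      _ = _ := by rw [← pow_mul, ← pow_mul, ← pow_add]; congr 1; ring
  have h5 : 2 ^ (K * (M + 11) + 1) ≤ 2 ^ (K * (M + 12)) := Nat.pow_le_pow_right (by omega) (by nlinarith)
  have h6 : 2 ^ 1 ≤ 2 ^ (K * (M + 11)) := Nat.pow_le_pow_right (by omega) (by nlinarith)
  exact (by rw [pow_succ] at h5; omega : _ ≤ 2 ^ (K * (M + 12))).trans (Nat.pow_le_pow_right (by omega) h1)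

theorem opt {N : ℕ} {E : List Q4} (h2 : 2 ≤ N) (hE : ∀ e ∈ E, Q4.lt N e) {g h : ℕ} (hg : g < N) (hh : h < N)
    (H : ∃ M, ∀ ε > 0, ∃ y, Sat E y ∧ |y g| < ε ∧ |y h| ≤ M) :
    ∃ m : ℝ, (∀ η > 0, ∀ ε > 0, ∃ y, Sat E y ∧ |y g| < ε ∧ |y h| < m + η) ∧
      (∀ M, (∀ ε > 0, ∃ y, Sat E y ∧ |y g| < ε ∧ |y h| ≤ M) → m ≤ M) ∧ m + 1 ≤ 2 ^ 2 ^ (3 * N + E.length + 8) ∧
      (m = 0 ∨ 1 < m * 2 ^ 2 ^ (3 * N + E.length + 8)) := by
  have lb : ∀ M ∈ {M | ∀ ε > 0, ∃ y, Sat E y ∧ |y g| < ε ∧ |y h| ≤ M}, (0 : ℝ) ≤ M := fun M hM => by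
    obtain ⟨y, -, -, c⟩ := hM 1 one_pos
    exact (abs_nonneg _).trans c
  obtain ⟨m, gl⟩ : ∃ m, IsGLB {M | ∀ ε > 0, ∃ y, Sat E y ∧ |y g| < ε ∧ |y h| ≤ M} m := ⟨_, isGLB_csInf H ⟨0, lb⟩⟩
  have m0 : 0 ≤ m := gl.2 lb
  have a1 : ∀ η > 0, ∀ ε > 0, ∃ y, Sat E y ∧ |y g| < ε ∧ |y h| < m + η := fun η hη ε hε => by
    obtain ⟨M, hM, -, c⟩ := gl.exists_between (lt_add_of_pos_right m hη)
    obtain ⟨y, a, b, d⟩ := hM ε hε
    exact ⟨y, a, b, d.trans_lt c⟩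
  have e : ∀ y : ℕ → ℝ, ∀ i < N, ex (fun i : Fin N => y i) i = y i := fun y i hi => by simp [ex, hi]
  obtain ⟨c, c0, c1, u, rfl, c2⟩ := opt_core (P := fun x : Fin N → ℝ => df (ex x) E) (R := fun i x => -ddf E i x)
    (by omega) (fun i => (po_ddf E i).neg) (fun x => df_nonneg _ _) (cont_df E) (fun x i => by simpa using der_df E x i)
    ⟨g, hg⟩ ⟨h, hh⟩ m0 (fun η hη ε hε => by
      obtain ⟨y, hy, b⟩ := a1 η hη ε hε
      exact ⟨fun i => y i, (df_zero _ _).2 ⟨by rw [e y 0 (by omega), hy.1], by rw [e y 1 (by omega), hy.2.1],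
        fun q hq => Q4.ok_congr (hE q hq) (e y) (hy.2.2 q hq)⟩, b⟩) (fun η hη => by
      by_contra k
      push Not at k
      have : m ≤ m - η := gl.1 fun ε hε => by
        obtain ⟨x, a, b, d⟩ := k ε hε
        exact ⟨ex x, (df_zero _ _).1 a, by simpa [ex, hg] using b, by simpa [ex, hh] using d.le⟩
      linarith) rfl
  obtain ⟨T, c1, bl⟩ : ∃ T : ℝ, (∀ a, (|c a| : ℝ) ≤ T) ∧ T + 2 ≤ (2 : ℝ) ^ 2 ^ (3 * N + E.length + 8) :=
    ⟨_, c1, by rw [Fintype.card_fin]; exact_mod_cast bound_le N E.length⟩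
  have b1 := root_bound c c0 c1 c2
  refine ⟨_, a1, fun M hM => gl.1 hM, by linarith, ?_⟩
  by_cases u0 : u = 0
  · exact .inl (by simp [u0])
  have b2 := root_bound (fun a => c a.rev) (fun q => c0 (funext fun a => by simpa using congrFun q a.rev))
    (fun a => c1 _) (u := u⁻¹) (by
      refine mul_left_cancel₀ (pow_ne_zero (16 * 5 ^ Fintype.card (Fin N)) u0) ?_
      rw [mul_zero, ← c2, mul_sum, ← Equiv.sum_comp Fin.revPerm]
      refine sum_congr rfl fun a _ => ?_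
      simp only [Fin.revPerm_apply, Fin.rev_rev, Fin.val_rev, Nat.add_sub_add_right]
      rw [inv_pow, ← pow_sub_mul_pow u (Nat.le_of_lt_succ a.2)]
      field_simp)
  have u1 := abs_pos.2 u0
  rw [abs_inv, inv_le_iff_one_le_mul₀' u1] at b2
  exact .inr (b2.trans_lt (mul_lt_mul_of_pos_left (by linarith) u1))

end Pool.Agent.H.MP_432bcd_lc
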