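import Pool.Agent.H.MP_432bcd_lc.B

/-! Elimination of two infinitesimal quantifiers in front of an existential block. -/

namespace Pool.Agent.H.MP_432bcd_lc

open Finset Pool.Agent.Lib.ER Pool.Agent.Lib.CX

set_option synthInstance.maxSize 4000

def gad (N L v : ℕ) (b : Bool) : List Q4 :=
  (1, 1, 1, N) :: (v, if b then N + L else 1, 0, N + L + 1) ::
    (if b then 1 else N + L, if b then 1 else N + L, 0, N + L + 2) :: (N + L + 3, N + L + 3, 0, N + L + 4) ::
    (N + L + 1, N + L + 1, N + L + 4, N + L + 2) :: (List.range L).map fun i => (N + i, N + i, 0, N + (i + 1))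

theorem gad_lt {N L v b} (_ : 2 ≤ N) (hv : v < N) : ∀ e ∈ gad N L v b, Q4.lt (N + L + 5) e := by
  cases b <;> simp only [gad, List.forall_mem_cons, List.forall_mem_map, List.mem_range, Q4.lt, if_true,
    Bool.false_eq_true, if_false] <;> refine ⟨?_, ?_, ?_, ?_, ?_, fun i hi => ?_⟩ <;> omega

theorem gad_sound {E N L v b y} (h : Sat (E ++ gad N L v b) y) :
    Sat E y ∧ |y v| * (if b then 2 ^ 2 ^ L else 1) ≤ if b then 1 else 2 ^ 2 ^ L := by
  obtain ⟨h0, h1, h⟩ := h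
  simp only [gad, List.forall_mem_append, List.forall_mem_cons, List.forall_mem_map, List.mem_range, Q4.ok, h0, h1,
    add_zero] at h
  obtain ⟨h, a, b1, b2, b3, b4, c⟩ := h
  have : ∀ i ≤ L, y (N + i) = 2 ^ 2 ^ i := fun i hi => by
    induction i with
    | zero => simp [← a]; norm_num
    | succ i ih => rw [← c i hi, ih (by omega), ← pow_add, pow_succ, mul_two]
  refine ⟨⟨h0, h1, h⟩, ?_⟩
  have p : (0 : ℝ) < 2 ^ 2 ^ L := by positivity
  cases b <;> simp only [if_true, Bool.false_eq_true, if_false, h1, this L le_rfl] at b1 b2 ⊢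
  · rw [mul_one]
    exact abs_le_of_sq_le_sq (by rw [← b1, ← b2, ← b3] at b4; nlinarith [mul_self_nonneg (y (N + L + 3))]) p.le
  · rw [← abs_of_pos p, ← abs_mul]
    exact abs_le_of_sq_le_sq (by rw [← b1, ← b2, ← b3] at b4; nlinarith [mul_self_nonneg (y (N + L + 3))]) zero_le_one

theorem gad_complete {E N L v b y} (h2 : 2 ≤ N) (hE : ∀ e ∈ E, Q4.lt N e) (hv : v < N) (h : Sat E y)
    (hb : |y v| * (if b then 2 ^ 2 ^ L else 1) ≤ if b then 1 else 2 ^ 2 ^ L) :
    ∃ z : ℕ → ℝ, (∀ i < N, z i = y i) ∧ Sat (E ++ gad N L v b) z := by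
  obtain ⟨p, hp⟩ : ∃ p : ℝ, p = if b then 2 ^ 2 ^ L else 1 := ⟨_, rfl⟩
  obtain ⟨q, hq⟩ : ∃ q : ℝ, q = if b then 1 else 2 ^ 2 ^ L := ⟨_, rfl⟩
  have p0 : 0 < p := by rw [hp]; split_ifs <;> positivity
  rw [← hp, ← hq, ← abs_of_pos p0, ← abs_mul] at hb
  have s : 0 ≤ q * q - y v * p * (y v * p) := by
    have := abs_le.1 hb
    nlinarith
  let z : ℕ → ℝ := fun i => if i < N then y i else if i ≤ N + L then 2 ^ 2 ^ (i - N) else
    [y v * p, q * q, √(q * q - y v * p * (y v * p)), q * q - y v * p * (y v * p)].getD (i - (N + L + 1)) 0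
  have z0 : ∀ i < N, z i = y i := fun i hi => if_pos hi
  have z1 : ∀ i ≤ L, z (N + i) = 2 ^ 2 ^ i := fun i hi => by simp [z, hi]
  have z2 : ∀ i, z (N + L + (i + 1)) = [y v * p, q * q, √(q * q - y v * p * (y v * p)),
      q * q - y v * p * (y v * p)].getD i 0 := fun i => by
    simp only [z]; rw [if_neg (by omega), if_neg (by omega), show N + L + (i + 1) - (N + L + 1) = i by omega]
  have a0 : z 0 = 0 := (z0 0 (by omega)).trans h.1
  have a1 : z 1 = 1 := (z0 1 (by omega)).trans h.2.1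
  refine ⟨z, z0, a0, a1, List.forall_mem_append.2 ⟨fun e he => Q4.ok_congr (hE e he) z0 (h.2.2 e he), ?_⟩⟩
  simp only [gad, List.forall_mem_cons, List.forall_mem_map, List.mem_range, Q4.ok, a0, a1, add_zero, z2 0, z2 1, z2 2,
    z2 3, z0 v hv, show z N = _ from z1 0 (by omega)]
  refine ⟨by norm_num, ?_, ?_, Real.mul_self_sqrt s, by simp, fun i hi => by
    rw [z1 i hi.le, z1 _ hi, ← pow_add, pow_succ, mul_two]⟩ <;> cases b <;> simp [hp, hq, a1, z1 L le_rfl]

def el (N : ℕ) (E : List Q4) (g h : ℕ) : List Q4 :=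
  E ++ gad N (3 * N + E.length + 8) h false ++ gad (N + (3 * N + E.length + 8) + 5)
    (3 * (N + (3 * N + E.length + 8) + 5) + (E ++ gad N (3 * N + E.length + 8) h false).length + 8) g true

theorem el_iff {N : ℕ} {E : List Q4} (h2 : 2 ≤ N) (hE : ∀ e ∈ E, Q4.lt N e) {g h : ℕ} (hg : g < N) (hh : h < N) :
    (∃ M, ∀ ε > 0, ∃ y, Sat E y ∧ |y g| < ε ∧ |y h| ≤ M) ↔ ∃ y, Sat (el N E g h) y := by
  have hE' : ∀ e ∈ E ++ gad N (3 * N + E.length + 8) h false, Q4.lt (N + (3 * N + E.length + 8) + 5) e :=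
    List.forall_mem_append.2 ⟨fun e he => (hE e he).mono (by omega), gad_lt h2 hh⟩
  unfold el
  generalize hL : 3 * (N + (3 * N + E.length + 8) + 5) + (E ++ gad N (3 * N + E.length + 8) h false).length + 8 = L
  refine ⟨fun H => ?_, fun ⟨y, hy⟩ => ?_⟩
  · obtain ⟨m, a, -, b, -⟩ := opt h2 hE hg hh H
    obtain ⟨y, c, d, e⟩ := a 1 one_pos (2 ^ 2 ^ L)⁻¹ (by positivity)
    obtain ⟨z, z0, z1⟩ := gad_complete (b := false) h2 hE hh c (by simpa using (e.trans_le b).le)
    obtain ⟨w, -, w1⟩ := gad_complete (b := true) (L := L) (by omega) hE' (v := g) (by omega) z1 (by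
      rw [z0 g hg]; simpa [← le_div_iff₀] using d.le)
    exact ⟨w, w1⟩
  · obtain ⟨a, b⟩ := gad_sound hy
    have H : ∀ ε > 0, ∃ z, Sat (E ++ gad N (3 * N + E.length + 8) h false) z ∧ |z 0| < ε ∧ |z g| ≤ |y g| :=
      fun ε hε => ⟨y, a, by simpa [a.1] using hε, le_rfl⟩
    obtain ⟨m, c, d, -, e⟩ := opt (by omega) hE' (by omega) (by omega) ⟨_, H⟩
    rw [hL] at e
    have : m = 0 := e.resolve_right (not_lt.2 ((mul_le_mul_of_nonneg_right (d _ H) (by positivity)).trans (by simpa using b)))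
    refine ⟨2 ^ 2 ^ (3 * N + E.length + 8), fun ε hε => ?_⟩
    obtain ⟨z, z0, -, z1⟩ := c ε hε 1 one_pos
    exact ⟨z, (gad_sound z0).1, by simpa [this] using z1, by simpa using (gad_sound z0).2⟩

theorem pt_el : PT fun a : List Unit × List Q4 × ℕ × ℕ => el a.1.length a.2.1 a.2.2.1 a.2.2.2 := by
  unfold el gad; fun_prop

def eqF (e : Q4) : Fm := .eq (.add (.mul (.var e.1) (.var e.2.1)) (.var e.2.2.1)) (.var e.2.2.2)

def sys (E : List Q4) : Fm := (E.map eqF).foldr .and (.and (.eq (.var 0) (.num 0)) (.eq (.var 1) (.num 1)))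

theorem sys_holds (E : List Q4) (x) : (sys E).Holds x ↔ Sat E x := by
  induction E with
  | nil => simp [sys, Fm.Holds, Tm.eval, Sat]
  | cons e E ih =>
    simp only [sys, List.map_cons, List.foldr_cons, Fm.Holds, Sat, List.forall_mem_cons] at *
    rw [ih]; simp only [eqF, Fm.Holds, Tm.eval, Q4.ok]; tauto

theorem sys_toks (E : List Q4) : (sys E).toks = (E.flatMap fun e =>
    [(8, 0), (4, 0), (2, 0), (3, 0), (0, (e.1 : ℤ)), (0, (e.2.1 : ℤ)), (0, (e.2.2.1 : ℤ)), (0, (e.2.2.2 : ℤ))]) ++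
    [(8, 0), (4, 0), (0, 0), (1, 0), (4, 0), (0, 1), (1, 1)] := by
  induction E with
  | nil => rfl
  | cons e E ih =>
    simp only [sys, List.map_cons, List.foldr_cons, Fm.toks, List.flatMap_cons] at *
    rw [ih]; rfl

theorem pt_sys_toks : PT fun E => (sys E).toks := by simp only [sys_toks]; fun_prop

theorem pt_sys : PT sys := pt_sys_toks.cast fun _ => rfl

end Pool.Agent.H.MP_432bcd_lc
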