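import Pool.Agent.H.MP_432bcd_lc.C

namespace Pool.Agent.H.MP_432bcd_lc

open Finset Pool.Agent.Lib.ER Pool.Agent.Lib.CX

set_option synthInstance.maxSize 4000

/-- a dimension `n` in unary and a formula in the variables `0, …, n - 1` -/
abbrev Inp := {a : List Unit × Fm // ∀ i ∈ vars a.2.toks, i < a.1.length}

/-- the subset of `ℝ ^ n` defined by the formula -/
def sa (a : List Unit × Fm) : Set (Fin a.1.length → ℝ) :=
  {x | a.2.Holds fun i => if h : i < a.1.length then x ⟨i, h⟩ else 0}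

def acc (s L t : ℕ) : List Q4 := (0, 0, 0, t) :: (List.range L).map fun i => (s + i, s + i, t + i, t + (i + 1))

theorem acc_iff {s L t} {y : ℕ → ℝ} (h0 : y 0 = 0) :
    (∀ e ∈ acc s L t, Q4.ok y e) ↔ ∀ i ≤ L, y (t + i) = ∑ j ∈ range i, y (s + j) ^ 2 := by
  simp only [acc, List.forall_mem_cons, List.forall_mem_map, List.mem_range, Q4.ok, h0, mul_zero, add_zero]
  refine ⟨fun ⟨a, b⟩ i hi => ?_, fun h => ⟨by simpa using (h 0 (by omega)).symm, fun i hi => by
    rw [h i hi.le, h _ hi, sum_range_succ]; ring⟩⟩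
  induction i with
  | zero => simpa using a.symm
  | succ i ih => rw [sum_range_succ, ← ih (by omega), ← b i hi]; ring

def shf (k : ℕ) (e : Q4) : Q4 := (k + e.1, k + e.2.1, k + e.2.2.1, k + e.2.2.2)

def join (n N M : ℕ) (E F : List Q4) : List Q4 :=
  E ++ ((0, 0, 0, N) :: (0, 0, 1, N + 1) :: F.map (shf N)) ++
    ((List.range n).map fun i => (1, N + M + i, N + (3 + i), 3 + i)) ++ acc (N + M) n (N + M + n) ++
    acc 0 N (N + M + n + n + 1)

theorem join_lt {n N M E F} (hN : n + 3 ≤ N) (hM : n + 3 ≤ M) (hE : ∀ e ∈ E, Q4.lt N e) (hF : ∀ e ∈ F, Q4.lt M e) :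
    ∀ e ∈ join n N M E F, Q4.lt (N + M + n + n + 1 + N + 1) e := by
  simp only [join, acc, List.forall_mem_append, List.forall_mem_cons, List.forall_mem_map, List.mem_range]
  refine ⟨⟨⟨⟨fun e he => (hE e he).mono (by omega), ?_, ?_, fun e he => ?_⟩, fun i hi => ?_⟩, ?_, fun i hi => ?_⟩, ?_,
    fun i hi => ?_⟩ <;> (try have := hF e he) <;> simp only [Q4.lt, shf] at * <;> omega

theorem join_iff {n N M E F} {y : ℕ → ℝ} : Sat (join n N M E F) y ↔ Sat E y ∧ Sat F (fun i => y (N + i)) ∧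
    (∀ i < n, y (N + M + i) = y (3 + i) - y (N + (3 + i))) ∧
    (∀ i ≤ n, y (N + M + n + i) = ∑ j ∈ range i, y (N + M + j) ^ 2) ∧
    ∀ i ≤ N, y (N + M + n + n + 1 + i) = ∑ j ∈ range i, y (0 + j) ^ 2 := by
  simp only [Sat, join, List.forall_mem_append, List.forall_mem_cons, List.forall_mem_map, List.mem_range, and_assoc]
  refine and_congr_right fun h0 => and_congr_right fun h1 => ?_
  simp only [acc_iff h0]
  simp only [Q4.ok, shf, h0, h1, mul_zero, add_zero, zero_add, one_mul, eq_sub_iff_add_eq, @eq_comm ℝ 0, @eq_comm ℝ 1]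

theorem comp_sa {a : List Unit × Fm} (h : ∀ i ∈ vars a.2.toks, i < a.1.length) (x : Fin a.1.length → ℝ) :
    x ∈ sa a ↔ ∃ y : ℕ → ℝ, (∀ i : Fin a.1.length, y (3 + i) = x i) ∧ Sat (comp a).2 y := by
  have := comp_iff a (ex x)
  refine Iff.trans ⟨fun k => ⟨ex x, fun _ _ => rfl, k⟩, fun ⟨z, b, c⟩ =>
    (a.2.holds_congr fun i hi => b i (h i hi)).1 c⟩ (this.trans (exists_congr fun y => and_congr_left fun _ =>
      ⟨fun k i => by simpa [ex] using k i i.2, fun k i hi => by simpa [ex, hi] using k ⟨i, hi⟩⟩))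

theorem nc_iff {n N M E F} (hN : n + 3 ≤ N) (hM : n + 3 ≤ M) (hE : ∀ e ∈ E, Q4.lt N e) (hF : ∀ e ∈ F, Q4.lt M e)
    {S : Set (Fin n → ℝ)} (cE : ∀ x, x ∉ S ↔ ∃ y : ℕ → ℝ, (∀ i : Fin n, y (3 + i) = x i) ∧ Sat E y)
    (cF : ∀ x, x ∈ S ↔ ∃ y : ℕ → ℝ, (∀ i : Fin n, y (3 + i) = x i) ∧ Sat F y) :
    ¬IsClosed S ↔ ∃ B, ∀ ε > 0, ∃ y, Sat (join n N M E F) y ∧ |y (N + M + n + n)| < ε ∧
      |y (N + M + n + n + 1 + N)| ≤ B := by
  refine ⟨fun h => ?_, fun ⟨B, h⟩ c => ?_⟩
  · obtain ⟨x, x1, x2⟩ := Set.not_subset.1 (mt closure_subset_iff_isClosed.1 h)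
    obtain ⟨z, z1, z2⟩ := (cE x).1 x2
    refine ⟨∑ j ∈ range N, z j ^ 2, fun ε hε => ?_⟩
    obtain ⟨u, u1, u2⟩ := Metric.mem_closure_iff.1 x1 √(ε / (n + 1)) (by positivity)
    obtain ⟨w, w1, w2⟩ := (cF u).1 u1
    let y : ℕ → ℝ := fun i => if i < N then z i else if i < N + M then w (i - N) else
      if i < N + M + n then z (3 + (i - (N + M))) - w (3 + (i - (N + M))) else
      if i < N + M + n + n + 1 then ∑ j ∈ range (i - (N + M + n)), (z (3 + j) - w (3 + j)) ^ 2 else
      ∑ j ∈ range (i - (N + M + n + n + 1)), z j ^ 2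
    have y0 : ∀ i < N, y i = z i := fun i hi => if_pos hi
    have y1 : ∀ i < M, y (N + i) = w i := fun i hi => by simp [y, hi]
    have y2 : ∀ i < n, y (N + M + i) = z (3 + i) - w (3 + i) := fun i hi => by
      simp only [y]; rw [if_neg (by omega), if_neg (by omega), if_pos (by omega), Nat.add_sub_cancel_left]
    have y3 : ∀ i ≤ n, y (N + M + n + i) = ∑ j ∈ range i, (z (3 + j) - w (3 + j)) ^ 2 := fun i hi => by
      simp only [y]
      rw [if_neg (by omega), if_neg (by omega), if_neg (by omega), if_pos (by omega), Nat.add_sub_cancel_left]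
    have y4 : ∀ i, y (N + M + n + n + 1 + i) = ∑ j ∈ range i, z j ^ 2 := fun i => by
      simp only [y]
      rw [if_neg (by omega), if_neg (by omega), if_neg (by omega), if_neg (by omega), Nat.add_sub_cancel_left]
    refine ⟨y, join_iff.2 ⟨⟨(y0 0 (by omega)).trans z2.1, (y0 1 (by omega)).trans z2.2.1, fun e he =>
      Q4.ok_congr (hE e he) y0 (z2.2.2 e he)⟩, ⟨(y1 0 (by omega)).trans w2.1, (y1 1 (by omega)).trans w2.2.1,
      fun e he => Q4.ok_congr (hF e he) y1 (w2.2.2 e he)⟩, fun i hi => by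
        rw [y2 i hi, y0 _ (by omega), y1 _ (by omega)], fun i hi => ?_, fun i hi => ?_⟩, ?_, ?_⟩
    · exact (y3 i hi).trans (sum_congr rfl fun j hj => by rw [y2 j (by have := mem_range.1 hj; omega)])
    · exact (y4 i).trans (sum_congr rfl fun j hj => by rw [zero_add, y0 j (by have := mem_range.1 hj; omega)])
    · rw [y3 n le_rfl, abs_of_nonneg (by positivity)]
      refine (sum_le_card_nsmul _ _ (ε / (n + 1)) fun j hj => ?_).trans_lt ?_
      · have := (dist_le_pi_dist x u ⟨j, mem_range.1 hj⟩).trans_lt u2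
        rw [Real.dist_eq, Real.lt_sqrt (abs_nonneg _), sq_abs, ← z1, ← w1] at this
        exact this.le
      · rw [card_range, nsmul_eq_mul, mul_div_assoc', div_lt_iff₀ (by positivity)]
        linarith
    · rw [y4, abs_of_nonneg (by positivity)]
  · obtain ⟨z, -, z1, z2⟩ := lim (isCompact_closedBall (0 : Fin N → ℝ) (B + 1))
      (W := {p | df (ex p.1) E = 0} ∩ {p | Metric.infDist (fun i : Fin n => ex p.1 (3 + i)) S ≤ p.2})
      ((isClosed_eq ((cont_df E).comp continuous_fst) continuous_const).inter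
        (isClosed_le ((Metric.continuous_infDist_pt S).comp (by fun_prop)) continuous_snd)) fun k => by
        have k0 : (0 : ℝ) < 1 / (k + 1) := by positivity
        obtain ⟨y, y0, y1, y2⟩ := h ((1 / (k + 1)) ^ 2) (by positivity)
        obtain ⟨a, b, c, d, e⟩ := join_iff.1 y0
        rw [d n le_rfl] at y1
        rw [e N le_rfl] at y2
        have l : ∀ i < N, ex (fun i : Fin N => y i) i = y i := fun i hi => by simp [ex, hi]
        refine ⟨fun i => y i, ?_, _, (abs_of_pos k0).le, (df_zero _ _).2 ⟨(l 0 (by omega)).trans a.1,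
          (l 1 (by omega)).trans a.2.1, fun e he => Q4.ok_congr (hE e he) l (a.2.2 e he)⟩,
          (Metric.infDist_le_dist_of_mem ((cF fun i => y (N + (3 + i))).2 ⟨_, fun _ => rfl, b⟩)).trans ?_⟩
        · rw [mem_closedBall_zero_iff, pi_norm_le_iff_of_nonneg (by linarith [abs_nonneg (∑ j ∈ range N, y (0 + j) ^ 2)])]
          intro i
          have := (single_le_sum (f := fun j => y (0 + j) ^ 2) (fun _ _ => sq_nonneg _) (mem_range.2 i.2)).trans
            ((le_abs_self _).trans y2)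
          rw [zero_add, ← sq_abs] at this
          rw [Real.norm_eq_abs]; nlinarith [sq_nonneg (|y i| - 1)]
        · refine (dist_pi_le_iff k0.le).2 fun i => ?_
          have := (single_le_sum (f := fun j => y (N + M + j) ^ 2) (fun _ _ => sq_nonneg _) (mem_range.2 i.2)).trans
            ((le_abs_self _).trans y1.le)
          rw [Real.dist_eq, l _ (by omega), ← c i i.2]
          exact abs_le_of_sq_le_sq this k0.le
    obtain ⟨y, y0, -⟩ := h 1 one_pos
    exact (cE _).2 ⟨ex z, fun _ => rfl, (df_zero _ _).1 z1⟩ ((c.mem_iff_infDist_zero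
      ⟨_, (cF fun i => y (N + (3 + i))).2 ⟨_, fun _ => rfl, (join_iff.1 y0).2.1⟩⟩).2 (le_antisymm z2 Metric.infDist_nonneg))

def jn (a : List Unit × (List Unit × List Q4) × List Unit × List Q4) : List Unit × List Q4 × ℕ × ℕ :=
  (List.replicate (a.2.1.1.length + a.2.2.1.length + a.1.length + a.1.length + 1 + a.2.1.1.length + 1) (),
    join a.1.length a.2.1.1.length a.2.2.1.length a.2.1.2 a.2.2.2,
    a.2.1.1.length + a.2.2.1.length + a.1.length + a.1.length,
    a.2.1.1.length + a.2.2.1.length + a.1.length + a.1.length + 1 + a.2.1.1.length)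

theorem pt_jn : PT jn := by unfold jn join acc shf; fun_prop

theorem mem : Red (fun a : Inp => ¬IsClosed (sa a.1)) ETR := by
  have h0 : PT fun a : Inp => a.1 := PT.id.cast fun _ => rfl
  have h1 : PT fun a : List Unit × Fm => Fm.not a.2 :=
    (show PT fun a : List Unit × Fm => ((7, 0) : ℕ × ℤ) :: a.2.toks by fun_prop).cast fun _ => rfl
  have h2 : PT fun a : List Unit × Fm => (a.1, comp (a.1, Fm.not a.2), comp a) :=
    PT.pair (by fun_prop) ((pt_comp.comp (PT.pair (by fun_prop) h1)).pair pt_comp)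
  refine ⟨_, pt_sys.comp (pt_el.comp (pt_jn.comp (h2.comp h0))), fun a => ?_⟩
  have l1 := comp_lt (a.1.1, Fm.not a.1.2)
  have l2 := comp_lt a.1
  refine (nc_iff l1.1 l2.1 l1.2 l2.2 (comp_sa (a := (a.1.1, Fm.not a.1.2)) (by simpa [vars, Fm.toks] using a.2))
    (comp_sa a.2)).trans ((el_iff (by omega) (join_lt l1.1 l2.1 l1.2 l2.2) (by omega) (by omega)).trans ?_)
  simp only [ETR, sys_holds, jn, List.length_replicate]

theorem hard : Red ETR fun a : Inp => ¬IsClosed (sa a.1) := by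
  have hv : ∀ a : List Unit × List Q4, ∀ i ∈ vars (Fm.and (sys (a.2.filter fun e => e.1 < a.1.length ∧
      e.2.1 < a.1.length ∧ e.2.2.1 < a.1.length ∧ e.2.2.2 < a.1.length)) (.lt (.num 0) (.var (a.1.length + 2)))).toks,
      i < (() :: () :: () :: a.1).length := fun a i hi => by
    simp [vars, Fm.toks, Tm.toks, sys_toks] at hi ⊢
    omega
  refine etr_of_qs (fun a => ⟨(_, _), hv a⟩) (PT.subtype (PT.pair (by fun_prop) ?_) hv) fun N E h3 hE => ?_
  · have := pt_sys
    exact (show PT fun a : List Unit × List Q4 => ((8, 0) : ℕ × ℤ) :: ((sys (a.2.filter fun e => e.1 < a.1.length ∧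
      e.2.1 < a.1.length ∧ e.2.2.1 < a.1.length ∧ e.2.2.2 < a.1.length)).toks ++
        [(5, 0), (1, 0), (0, ((a.1.length + 2 : ℕ) : ℤ))]) by fun_prop).cast fun _ => rfl
  have fe : (E.filter fun e => e.1 < N.length ∧ e.2.1 < N.length ∧ e.2.2.1 < N.length ∧ e.2.2.2 < N.length) = E :=
    List.filter_eq_self.2 fun e he => decide_eq_true (show _ ∧ _ from hE e he)
  refine Iff.trans ?_ (iff_of_eq (congrArg (fun F => ¬IsClosed (sa (() :: () :: () :: N,
    Fm.and (sys F) (.lt (.num 0) (.var (N.length + 2)))))) fe.symm))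
  have e : ∀ x, x ∈ sa (() :: () :: () :: N, Fm.and (sys E) (.lt (.num 0) (.var (N.length + 2)))) ↔
      Sat E (ex x) ∧ 0 < x ⟨N.length + 2, by simp⟩ := fun x => by
    simp only [sa, Set.mem_ofPred_eq, Fm.Holds, sys_holds, Tm.eval, Int.cast_zero]
    rw [dif_pos (by simp)]; rfl
  refine ⟨fun ⟨y, hy⟩ c => ?_, fun h => ?_⟩
  · have := c.preimage (f := fun (t : ℝ) (i : Fin (() :: () :: () :: N).length) => if i.1 = N.length + 2 then t else y i)
      (continuous_pi fun i => by split_ifs <;> fun_prop)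
    have q : ∀ t : ℝ, ∀ i < N.length, ex (fun i : Fin (() :: () :: () :: N).length =>
        if i.1 = N.length + 2 then t else y i) i = y i := fun t i hi => by
      simp only [ex]; rw [dif_pos (by simp; omega), if_neg (by omega)]
    have m : ∀ t ∈ Set.Ioi (0 : ℝ), _ := fun t ht => (e fun i => if i.1 = N.length + 2 then t else y i).2
      ⟨⟨(q t 0 (by omega)).trans hy.1, (q t 1 (by omega)).trans hy.2.1, fun e he =>
        Q4.ok_congr (hE e he) (q t) (hy.2.2 e he)⟩, by simpa using ht⟩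
    simpa using ((e _).1 (Set.mem_preimage.1 (this.closure_subset (closure_mono m (show (0 : ℝ) ∈ _ by simp))))).2
  · by_contra k
    exact h (Set.eq_empty_of_forall_notMem (fun x hx => k ⟨_, ((e x).1 hx).1⟩) ▸ isClosed_empty)

end Pool.Agent.H.MP_432bcd_lc
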